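import Pool.Agent.Q260.KK.Spec

set_option autoImplicit false

/-!
# Project KK: assembly
-/

namespace Pool.Agent.Q260.KK

open MeasureTheory Filter Topology Set Complex

lemma fac_zero {n : ℕ} {z : ℂ} (h : fac n z = 0) : |z.im| < 3 := by
  have hr : (rn n : ℂ) ≠ 0 := by
    unfold rn
    exact_mod_cast (pow_pos two_pos _).ne'
  unfold fac at h
  rcases mul_eq_zero.1 h with h1 | h1
  · have h2 : 1 - z ^ 2 / (rn n : ℂ) ^ 2 = 0 := by
      by_contra h3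
      exact pow_ne_zero _ h3 h1
    have h3 : z ^ 2 = (rn n : ℂ) ^ 2 := by
      rw [sub_eq_zero, eq_div_iff (pow_ne_zero 2 hr), one_mul] at h2
      exact h2.symm
    rcases sq_eq_sq_iff_eq_or_eq_neg.1 h3 with h4 | h4
    · rw [h4]; simp
    · rw [h4]; simp
  · unfold qf at h1
    have hx : ((xn n : ℂ) ^ 2 + 4) ^ 2 ≠ 0 := by
      have : ((xn n : ℂ) ^ 2 + 4) = ((xn n ^ 2 + 4 : ℕ) : ℂ) := by push_cast; ring
      rw [this]
      exact pow_ne_zero 2 (by exact_mod_cast (by positivity : xn n ^ 2 + 4 ≠ 0))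
    rw [div_eq_zero_iff, or_iff_left hx] at h1
    have key : ∀ w : ℂ, w ^ 2 + 4 = 0 → |w.im| < 3 := by
      intro w hw
      have h5 : w ^ 2 = (2 * I) ^ 2 := by rw [mul_pow, I_sq]; linear_combination hw
      rcases sq_eq_sq_iff_eq_or_eq_neg.1 h5 with h6 | h6
      · rw [h6]; norm_num
      · rw [h6]; norm_num
    rcases mul_eq_zero.1 h1 with h2 | h2
    · have := key _ h2
      simpa using this
    · have := key _ h2
      simpa using this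

theorem main (hPR : S_PR) (hUP : S_UP) (hLO : S_LO) (hLOC : S_LOC) (hINT : S_INT) (hDIF : S_DIF) (hCONV : S_CONV)
    (hHUR : S_HUR) : ¬ (∀ f : ℂ → ℂ, Differentiable ℂ f →
      (∀ x : ℝ, (f (x : ℂ)).im = 0) →
      (∀ z : ℂ, f (-z) = f z) →
      (∀ ε : ℝ, 0 < ε → ∃ R : ℝ, ∀ z : ℂ, R ≤ ‖z‖ → ‖f z‖ ≤ Real.exp (‖z‖ ^ (1 + ε))) →
      (∀ C R : ℝ, ∃ z : ℂ, R ≤ ‖z‖ ∧ Real.exp (C * ‖z‖) < ‖f z‖) →
      ∀ Δ : ℝ, 0 < Δ → (∀ z : ℂ, f z = 0 → |z.im| < Δ) →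
      ∀ lam : ℝ, 0 < lam →
      ∀ g : ℂ → ℂ,
        (∀ z : ℂ, g z = ∑' k : ℕ,
          (-(lam : ℂ)) ^ k / ((Nat.factorial k : ℕ) : ℂ) * iteratedDeriv (2 * k) f z) →
        {z : ℂ | g z = 0 ∧ (z.im ≠ 0 ∨ deriv g z = 0)}.Finite) := by
  intro H
  obtain ⟨-, hd, hre, hev, hz⟩ := hPR
  have hup : ∃ R : ℝ, ∀ z : ℂ, R ≤ ‖z‖ → ‖ff z‖ ≤ Real.exp (‖z‖ ^ (3 / 2 : ℝ)) := by
    obtain ⟨R, hR⟩ := hUP (1 / 2) (by norm_num)
    refine ⟨R, fun z hz => ?_⟩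
    have := hR z hz
    rwa [show (1 : ℝ) + 1 / 2 = 3 / 2 by norm_num] at this
  set A : ℂ := ((1 / Real.sqrt (4 * Real.pi) : ℝ) : ℂ) with hA
  set g : ℂ → ℂ := fun z => A * ∫ y : ℝ, ((Real.exp (-(y ^ 2 / 4)) : ℝ) : ℂ) * ff (z + y * I) with hg
  have hfin := H ff hd hre hev hUP hLO 3 (by norm_num) (fun z h => by
    obtain ⟨n, hn⟩ := hz z h
    exact fac_zero hn) 1 one_pos g (fun z => (hINT ff hd hup z).2.symm)
  obtain ⟨e, he, he0, hloc⟩ := hLOC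
  have hconv := hCONV ff hd (fun k => (xn k : ℝ)) e he he0 (fun k z => by
    have := hloc k z
    push_cast
    exact this) (fun z => (hINT ff hd hup z).1)
  have hGd : ∀ k : ℕ, Differentiable ℂ fun z : ℂ => (((1 / Real.sqrt (4 * Real.pi) : ℝ) : ℂ) *
      ∫ y : ℝ, ((Real.exp (-(y ^ 2 / 4)) : ℝ) : ℂ) * ff (((xn k : ℝ) : ℂ) + z + y * I)) / ff ((xn k : ℝ) : ℂ) := by
    intro k
    have h1 := hDIF ff hd hup
    have h2 : Differentiable ℂ fun z : ℂ => ((xn k : ℝ) : ℂ) + z := by fun_prop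
    exact ((h1.comp h2).const_mul _).div_const _
  have hzero := hHUR _ hGd hconv
  have hxk : Tendsto (fun k : ℕ => (xn k : ℝ)) atTop atTop := by
    have h1 : ∀ k : ℕ, (k : ℝ) ≤ xn k := by
      intro k
      have h2 : k ≤ xn k := by
        unfold xn rn
        have h3 : k < 2 ^ k := Nat.lt_two_pow_self
        have h4 : k ≤ 4 ^ (k + 1) := by
          have : k + 1 < 4 ^ (k + 1) := Nat.lt_pow_self (by norm_num)
          omega
        have h5 : 2 ^ k ≤ 2 ^ 4 ^ (k + 1) := Nat.pow_le_pow_right (by norm_num) h4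
        have h6 : 2 ^ 4 ^ (k + 1) ≤ (2 ^ 4 ^ (k + 1)) ^ 2 := Nat.le_self_pow (by norm_num) _
        omega
      exact_mod_cast h2
    exact tendsto_atTop_mono h1 tendsto_natCast_atTop_atTop
  -- boundedness of the real parts contradicts the zeros near `x_k`
  obtain ⟨M, hM⟩ : ∃ M : ℝ, ∀ z ∈ {z : ℂ | g z = 0 ∧ (z.im ≠ 0 ∨ deriv g z = 0)}, ‖z‖ ≤ M :=
    hfin.isBounded.exists_norm_le
  obtain ⟨k, ⟨z, hz1, hz2⟩, hk⟩ := (hzero.and (hxk.eventually_gt_atTop (M + 3))).exists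
  have hs2 : 1 < Real.sqrt 2 := by
    rw [Real.lt_sqrt (by norm_num)]; norm_num
  have hs3 : Real.sqrt 2 < 2 := by
    rw [Real.sqrt_lt' (by norm_num)]; norm_num
  have him : |(z - (Real.sqrt 2 : ℂ) * I).im| ≤ 1 / 4 := (Complex.abs_im_le_norm _).trans hz1
  have hrei : |(z - (Real.sqrt 2 : ℂ) * I).re| ≤ 1 / 4 := (Complex.abs_re_le_norm _).trans hz1
  have e1 : (z - (Real.sqrt 2 : ℂ) * I).im = z.im - Real.sqrt 2 := by simp
  have e2 : (z - (Real.sqrt 2 : ℂ) * I).re = z.re := by simp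
  rw [e1, abs_le] at him
  rw [e2, abs_le] at hrei
  have hf0 : ff ((xn k : ℝ) : ℂ) ≠ 0 := by
    have := (hloc k 0).1
    push_cast
    exact this
  have hgz : g (((xn k : ℝ) : ℂ) + z) = 0 := by
    rcases div_eq_zero_iff.1 hz2 with h | h
    · exact h
    · exact absurd h hf0
  have hmem : (((xn k : ℝ) : ℂ) + z) ∈ {z : ℂ | g z = 0 ∧ (z.im ≠ 0 ∨ deriv g z = 0)} := by
    refine ⟨hgz, Or.inl ?_⟩
    rw [Complex.add_im, Complex.ofReal_im, zero_add]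
    intro h
    rw [h] at him
    linarith [him.1]
  have h3 := hM _ hmem
  have h4 : |(((xn k : ℝ) : ℂ) + z).re| ≤ M := (Complex.abs_re_le_norm _).trans h3
  rw [Complex.add_re, Complex.ofReal_re] at h4
  have h5 := (abs_le.1 h4).2
  linarith [hrei.1]

end Pool.Agent.Q260.KK
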