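import Mathlib

set_option autoImplicit false

/-!
# Project KK: a counterexample to the question of Ki, Kim and Lee (MP_2e654e_an, negation S04216)

`f = ∏ (1 - z²/R_n²)^(m_n) ((z - x_n)² + 4) ((z + x_n)² + 4) / (x_n² + 4)²`, `R_n = 2^(4^(n+1))`, `m_n = (n+1) R_n`, `x_n = R_n²`
(so `R_(n+1) = x_n²`). The zeros `± R_n` of high multiplicity make `f` of order `1` and maximal type; the zeros `± x_n ± 2 i` are isolated: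
near `x_n` the function `f(x_n + z) / f(x_n)` is close to `(z² + 4)/4`, and `e^(-D²)` turns this into `(z² + 2)/4`, whose zeros are not real.
-/

namespace Pool.Agent.Q260.KK

open MeasureTheory Filter Topology Set Complex

/-- `R_n` as a natural number -/
def rn (n : ℕ) : ℕ := 2 ^ (4 ^ (n + 1))

/-- the multiplicities -/
def mn (n : ℕ) : ℕ := (n + 1) * rn n

/-- the places of the isolated pairs -/
def xn (n : ℕ) : ℕ := rn n ^ 2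

/-- the factor with the zeros `± x_n ± 2 i` -/
noncomputable def qf (n : ℕ) (z : ℂ) : ℂ :=
  ((z - xn n) ^ 2 + 4) * ((z + xn n) ^ 2 + 4) / ((xn n : ℂ) ^ 2 + 4) ^ 2

/-- the factors -/
noncomputable def fac (n : ℕ) (z : ℂ) : ℂ := (1 - z ^ 2 / (rn n : ℂ) ^ 2) ^ (mn n) * qf n z

/-- the function -/
noncomputable def ff (z : ℂ) : ℂ := ∏' n, fac n z

/-- JOB PR. Proof. `fac n z = 1 + u_n(z)` with `|u_n(z)| ≤ exp (c_n (|z|² + |z|⁴)) - 1`, `c_n = C (n+1)/R_n`, summable, so the product converges locally uniformly (`HasProdLocallyUniformlyOn`, `Summable.hasProdLocallyUniformlyOn_nat_one_add` or the like)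
and is zero only where a factor is zero (split off the first factors, for the others `∑ |u_n| ≤ 1/4`). -/
def S_PR : Prop := (∀ z, Multipliable fun n => fac n z) ∧ Differentiable ℂ ff ∧ (∀ x : ℝ, (ff (x : ℂ)).im = 0) ∧ (∀ z, ff (-z) = ff z) ∧
  (∀ z, ff z = 0 → ∃ n, fac n z = 0)

/-- JOB UP. Proof. `|fac n z| ≤ (1 + |z|²/R_n²)^(m_n) (1 + |z|/x_n)⁴` (`qf` is `∏ (1 - z/ρ)` over `ρ = ± x_n ± 2i`, `|ρ| ≥ x_n`). For `R_k ≤ |z| < R_(k+1)` (or `|z| = r` and `k` the largest index with `R_k ≤ r`): the factors `n ≤ k` give at most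
`exp ((k+1)² R_k · 2 log (1 + r) + 4 (k+1) log (1+r)) ≤ exp (C (k+1)² r log (1+r))`, wait for `R_k ≤ r`; the factors `n > k` at most `exp (∑_{n>k} (n+1) r²/R_n + 4 r/x_n) ≤ exp (C (k+2) r)` because `r < R_(k+1)`; and `k ≤ C log log r`. -/
def S_UP : Prop := ∀ ε : ℝ, 0 < ε → ∃ R : ℝ, ∀ z : ℂ, R ≤ ‖z‖ → ‖ff z‖ ≤ Real.exp (‖z‖ ^ (1 + ε))

/-- JOB LO. Proof. `z = i R_k`: `fac n (i y) ≥ 1` for all `n` and real `y` (`(x² + 4 - y²)² + 4 x² y² ≥ (x² + 4)²` for `x ≥ 2`), and the factor `n = k` is at least `2^((k+1) R_k)`. -/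
def S_LO : Prop := ∀ C R : ℝ, ∃ z : ℂ, R ≤ ‖z‖ ∧ Real.exp (C * ‖z‖) < ‖ff z‖

/-- JOB LOC. Proof. `ff (x_k + z) / ff x_k = (z² + 4)/4 · ∏ (1 + v_j)`: for `j ≤ k` the quotient of the `m_j`-th powers is `(1 - (2 x_k z + z²)/(R_j² - x_k²))^(m_j)`, `|R_j² - x_k²| ≥ x_k²/2`; for `j > k` it is at least `R_j²/2`; for `j ≠ k` the quotient of `qf` is
`∏ (1 - z/(ρ - x_k))` over the four zeros, `|ρ - x_k| ≥ max(x_j, x_k)/2`; for `j = k` it is `(z² + 4)/4 · ((2 x_k + z)² + 4)/((2 x_k)² + 4)`. With `|∏ (1 + v) - 1| ≤ exp (∑ |v|) - 1` (all linear factors counted with multiplicity)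
the exponent is at most `∑_{j≤k} m_j (4|z|/x_k + 2|z|²/x_k²) + ∑_{j>k} m_j (4 x_k |z| + 2|z|²)/R_j² + ∑_{j≤k} 8|z|/x_k + ∑_{j>k} 8|z|/x_j ≤ ε_k (|z| + |z|²)`, `ε_k → 0`. -/
def S_LOC : Prop := ∃ e : ℕ → ℝ, Tendsto e atTop (𝓝 0) ∧ (∀ k, 0 ≤ e k) ∧ ∀ (k : ℕ) (z : ℂ), ff (xn k) ≠ 0 ∧
  ‖ff (xn k + z) / ff (xn k) - (z ^ 2 + 4) / 4‖ ≤ (‖z‖ ^ 2 + 4) / 4 * (Real.exp (e k * (‖z‖ + ‖z‖ ^ 2)) - 1)

/-- JOB INT. Proof. Taylor series of `f` at `z`, `f(z + iy) = ∑ f^(n)(z) (iy)^n/n!`, integrated term by term against `exp (-y²/4)`: odd moments vanish, `∫ y^(2k) exp (-y²/4) dy = √(4π) (2k)!/k!`. Cauchy: `|f^(n)(z)|/n! ≤ exp (|z| + r)^(3/2) / r^n`, `r = √n` say, so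
`∑ |f^(n)(z)|/n! ∫ |y|^n exp (-y²/4) dy < ∞` (or: dominated convergence with `∑ |f^(n)(z)| |y|^n/n! ≤ C exp (y²/8)`). -/
def S_INT : Prop := ∀ f : ℂ → ℂ, Differentiable ℂ f → (∃ R : ℝ, ∀ z : ℂ, R ≤ ‖z‖ → ‖f z‖ ≤ Real.exp (‖z‖ ^ (3 / 2 : ℝ))) → ∀ z : ℂ,
  Integrable (fun y : ℝ => ((Real.exp (-(y ^ 2 / 4)) : ℝ) : ℂ) * f (z + y * I)) ∧
  ∑' k : ℕ, (-(((1 : ℝ)) : ℂ)) ^ k / ((Nat.factorial k : ℕ) : ℂ) * iteratedDeriv (2 * k) f z =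
    ((1 / Real.sqrt (4 * Real.pi) : ℝ) : ℂ) * ∫ y : ℝ, ((Real.exp (-(y ^ 2 / 4)) : ℝ) : ℂ) * f (z + y * I)

/-- JOB DIF. Differentiation under the integral (or uniform limits on compact sets, or `∑` of `S_INT`). -/
def S_DIF : Prop := ∀ f : ℂ → ℂ, Differentiable ℂ f → (∃ R : ℝ, ∀ z : ℂ, R ≤ ‖z‖ → ‖f z‖ ≤ Real.exp (‖z‖ ^ (3 / 2 : ℝ))) →
  Differentiable ℂ fun z : ℂ => ∫ y : ℝ, ((Real.exp (-(y ^ 2 / 4)) : ℝ) : ℂ) * f (z + y * I)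

/-- JOB CONV (from `S_LOC`). The heat transform of `ff` near `x_k`. `(1/√(4π)) ∫ exp (-y²/4) ((z + iy)² + 4)/4 dy = (z² + 2)/4`; the error is at most `(1/√(4π)) ∫ exp (-y²/4) (|z+iy|² + 4)/4 (exp (ε_k (|z+iy| + |z+iy|²)) - 1) dy`, which tends to 0
(dominated convergence; for `|z| ≤ 3` bound `|z + iy| ≤ 3 + |y|`). -/
def S_CONV : Prop := ∀ f : ℂ → ℂ, Differentiable ℂ f → ∀ (x : ℕ → ℝ) (e : ℕ → ℝ), Tendsto e atTop (𝓝 0) → (∀ k, 0 ≤ e k) →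
  (∀ (k : ℕ) (z : ℂ), f (x k) ≠ 0 ∧
    ‖f (x k + z) / f (x k) - (z ^ 2 + 4) / 4‖ ≤ (‖z‖ ^ 2 + 4) / 4 * (Real.exp (e k * (‖z‖ + ‖z‖ ^ 2)) - 1)) →
  (∀ z : ℂ, Integrable (fun y : ℝ => ((Real.exp (-(y ^ 2 / 4)) : ℝ) : ℂ) * f (z + y * I))) →
  TendstoUniformlyOn (fun (k : ℕ) (z : ℂ) => (((1 / Real.sqrt (4 * Real.pi) : ℝ) : ℂ) *
    ∫ y : ℝ, ((Real.exp (-(y ^ 2 / 4)) : ℝ) : ℂ) * f (x k + z + y * I)) / f (x k)) (fun z => (z ^ 2 + 2) / 4) atTop (Metric.closedBall 0 3)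

/-- JOB HUR. A form of Hurwitz's theorem: zeros of `G_k` near the zero `i √2` of the limit (minimum principle on the disc of radius `1/4` about `i √2`, where `|z² + 2|/4 ≥ 1/8` on the circle). -/
def S_HUR : Prop := ∀ G : ℕ → ℂ → ℂ, (∀ k, Differentiable ℂ (G k)) →
  TendstoUniformlyOn G (fun z => (z ^ 2 + 2) / 4) atTop (Metric.closedBall 0 3) →
  ∀ᶠ k in atTop, ∃ z : ℂ, ‖z - (Real.sqrt 2 : ℂ) * I‖ ≤ 1 / 4 ∧ G k z = 0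

end Pool.Agent.Q260.KK
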